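import Mathlib
import Pool.Agent.MP_2b113a_an.C3.Iface
import Pool.Agent.MP_2b113a_an.H19.RelT2

/-!
Relative property (T) for three-space under the symmetric squares of two shears.
-/

namespace Pool.Agent.MP_2b113a_an.H29

open MeasureTheory ProbabilityTheory Filter Topology
open scoped ENNReal NNReal InnerProductSpace
open Pool.Agent.MP_2b113a_an.C3
open Pool.Agent.MP_2b113a_an.H19 (AI abs_in)

/-- Bounded measurable functions. -/
structure Bd (f : T3 → ℝ) : Prop where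
  m : Measurable f
  b : ∃ B, ∀ q, |f q| ≤ B

lemma Bd.int {f : T3 → ℝ} (h : Bd f) (a b c : ℝ≥0) : Integrable f (N3 a b c) := by
  obtain ⟨B, hB⟩ := h.b
  exact Integrable.of_bound h.m.aestronglyMeasurable B (ae_of_all _ hB)

/-- The first two parts of the statement on positive definite functions. -/
structure PDk (κ : ℝ≥0) : Prop where
  nn : ∀ f, PD f → ∀ i m j, 0 ≤ Dk κ f i m j
  le : ∀ f, PD f → ∀ J : Finset (ℕ × ℕ), (∀ x ∈ J, x.2 ≤ x.1) →
    ∑ x ∈ J, Dk κ f (x.1 + x.2) x.1 (x.1 - x.2) ≤ Gi f 1 1 1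

/-- The sum of mixed differences along a shifted diagonal. -/
noncomputable def Dd (κ : ℝ≥0) (N m₁ k : ℕ) (f : T3 → ℝ) : ℝ :=
  ∑ m ∈ Finset.range m₁, Dk κ f (N + m + k) (N + m) (N + m - k)

lemma Dd_add {f g : T3 → ℝ} (hf : Bd f) (hg : Bd g) (κ : ℝ≥0) (N m₁ k : ℕ) :
    Dd κ N m₁ k (fun q => f q + g q) = Dd κ N m₁ k f + Dd κ N m₁ k g := by
  rw [Dd, Dd, Dd, ← Finset.sum_add_distrib]
  refine Finset.sum_congr rfl fun m _ => ?_
  simp only [Dk, Gi, integral_add (hf.int _ _ _) (hg.int _ _ _)]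
  ring

lemma Dd_mul (c : ℝ) (f : T3 → ℝ) (κ : ℝ≥0) (N m₁ k : ℕ) :
    Dd κ N m₁ k (fun q => c * f q) = c * Dd κ N m₁ k f := by
  rw [Dd, Dd, Finset.mul_sum]
  refine Finset.sum_congr rfl fun m _ => ?_
  simp only [Dk, Gi, integral_const_mul]
  ring

lemma PDk.Dd_nonneg {κ : ℝ≥0} (P : PDk κ) {f : T3 → ℝ} (hf : PD f) (N m₁ k : ℕ) :
    0 ≤ Dd κ N m₁ k f := Finset.sum_nonneg fun _ _ => P.nn f hf _ _ _

lemma PDk.sum_Dd {κ : ℝ≥0} (P : PDk κ) {f : T3 → ℝ} (hf : PD f) {N₀ N : ℕ} (h : N₀ ≤ N + 1)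
    (m₁ : ℕ) : ∑ k ∈ Finset.range N₀, Dd κ N m₁ k f ≤ Gi f 1 1 1 := by
  have := P.le f hf ((Finset.range N₀ ×ˢ Finset.range m₁).image fun x => (N + x.2, x.1)) (by
    intro x hx
    obtain ⟨⟨a, b⟩, h1, rfl⟩ := Finset.mem_image.1 hx
    simp only [Finset.mem_product, Finset.mem_range] at h1 ⊢
    omega)
  rw [Finset.sum_image, Finset.sum_product] at this
  · exact this
  · rintro ⟨a, b⟩ h1 ⟨c, d⟩ h2 h3
    simp only [Prod.mk.injEq] at h3 ⊢
    omega

lemma N3_map_dg {l : ℝ} (hl : l ≠ 0) (k i m j : ℕ) :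
    (N3 (kap l ^ i) (kap l ^ m) (kap l ^ (j + k))).map (dg l k) =
      N3 (kap l ^ (i + k)) (kap l ^ m) (kap l ^ j) := by
  have := N3_map_scale (kap l ^ i) (kap l ^ m) (kap l ^ (j + k)) (l ^ k) 1 (l ^ k)⁻¹
  simp only [one_mul] at this
  unfold dg
  rw [this]
  congr 1 <;> ext <;> simp only [H83.kap, NNReal.coe_mul, NNReal.coe_mk, NNReal.coe_pow] <;>
    field_simp <;> ring

lemma Dd_dg {l : ℝ} (hl : l ≠ 0) {f : T3 → ℝ} (hf : Measurable f) {N k : ℕ} (h : k ≤ N)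
    (m₁ : ℕ) : Dd (kap l) N m₁ 0 (fun q => f (dg l k q)) = Dd (kap l) N m₁ k f := by
  have e : ∀ i m j i' j', i' = i + k → j = j' + k →
      Gi (fun q => f (dg l k q)) (kap l ^ i) (kap l ^ m) (kap l ^ j) =
        Gi f (kap l ^ i') (kap l ^ m) (kap l ^ j') := by
    rintro i m j i' j' rfl rfl
    rw [Gi, Gi, ← N3_map_dg hl, integral_map (by fun_prop) hf.aestronglyMeasurable]
  refine Finset.sum_congr rfl fun m _ => ?_
  simp only [Dk]
  rw [e _ _ _ (N + m + k) (N + m - k), e _ _ _ (N + m + k + 1) (N + m - k),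
    e _ _ _ (N + m + k) (N + m - k + 1), e _ _ _ (N + m + k + 1) (N + m - k + 1)] <;> omega

variable {H : Type} [NormedAddCommGroup H] [InnerProductSpace ℝ H]

/-- Continuous orthogonal representations of three-space. -/
structure Rp (ρ : T3 → (H ≃ₗᵢ[ℝ] H)) : Prop where
  add : ∀ p q, ρ (p + q) = ρ p * ρ q
  cont : ∀ v, Continuous fun q => ρ q v

/-- The diagonal matrix coefficient. -/
noncomputable def co (ρ : T3 → (H ≃ₗᵢ[ℝ] H)) (η : H) (q : T3) : ℝ := ⟪ρ q η, η⟫_ℝ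

variable {ρ : T3 → (H ≃ₗᵢ[ℝ] H)}

lemma abs_co (η : H) (q : T3) : |co ρ η q| ≤ ‖η‖ ^ 2 := by
  rw [sq]; exact abs_in _ _ _

lemma co_eq (η : H) (q : T3) : co ρ η q = ‖η‖ ^ 2 - ‖ρ q η - η‖ ^ 2 / 2 := by
  rw [norm_sub_sq_real, LinearIsometryEquiv.norm_map, co]; ring

lemma co_par (ξ η : H) (q : T3) :
    co ρ (ξ + η) q + co ρ (ξ - η) q = 2 * (co ρ ξ q + co ρ η q) := by
  simp only [co, map_add, map_sub, inner_add_left, inner_add_right, inner_sub_left,
    inner_sub_right]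
  ring

namespace Rp

lemma lin (h : Rp ρ) (A : T3 ≃ₗ[ℝ] T3) : Rp fun q => ρ (A q) :=
  ⟨fun p q => by simp only [map_add, h.add], fun v => (h.cont v).comp (continuous_lin A)⟩

lemma co_sub (h : Rp ρ) (η : H) (p q : T3) : co ρ η (p - q) = ⟪ρ p η, ρ q η⟫_ℝ := by
  have : ρ p = ρ q * ρ (p - q) := by rw [← h.add]; congr 1; abel
  rw [this, co, LinearIsometryEquiv.coe_mul, Function.comp_apply,
    LinearIsometryEquiv.inner_map_map]

lemma cont_in (h : Rp ρ) (w η : H) : Continuous fun q => ⟪ρ q w, η⟫_ℝ :=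
  (h.cont w).inner continuous_const

lemma bd_in (h : Rp ρ) (w η : H) : Bd fun q => ⟪ρ q w, η⟫_ℝ :=
  ⟨(h.cont_in w η).measurable, _, fun _ => abs_in _ _ _⟩

lemma bd_co (h : Rp ρ) (η : H) : Bd (co ρ η) := h.bd_in η η

lemma pd_co [CompleteSpace H] (h : Rp ρ) (η : H) : PD (co ρ η) := by
  refine ⟨(h.bd_co η).m, (h.bd_co η).b, fun g hg hi => ?_⟩
  have i1 : Integrable fun p => g p • ρ p η := by
    refine (hi.norm.mul_const ‖η‖).mono'
      (hg.aestronglyMeasurable.smul (h.cont η).aestronglyMeasurable) (ae_of_all _ fun p => ?_)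
    rw [norm_smul, LinearIsometryEquiv.norm_map]
  have e : ∀ p q, g p * g q * co ρ η (p - q) = ⟪g p • ρ p η, g q • ρ q η⟫_ℝ := fun p q => by
    rw [h.co_sub, real_inner_smul_left, real_inner_smul_right, mul_assoc]
  simp_rw [e, integral_inner i1]
  simp_rw [fun p => real_inner_comm (∫ q, g q • ρ q η) (g p • ρ p η)]
  rw [integral_inner i1]
  exact real_inner_self_nonneg

lemma Gi_le (h : Rp ρ) (η : H) (a b c : ℝ≥0) : Gi (co ρ η) a b c ≤ ‖η‖ ^ 2 :=
  (integral_mono ((h.bd_co η).int a b c) (integrable_const _)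
    fun q => (le_abs_self _).trans (abs_co η q)).trans (by simp)

variable [CompleteSpace H] {κ : ℝ≥0}

lemma Dd_le (h : Rp ρ) (P : PDk κ) (η : H) (N m₁ : ℕ) : Dd κ N m₁ 0 (co ρ η) ≤ ‖η‖ ^ 2 := by
  have := P.sum_Dd (h.pd_co η) (N₀ := 1) (N := N) (by omega) m₁
  rw [Finset.sum_range_one] at this
  exact this.trans (h.Gi_le η _ _ _)

lemma Dd_lip (h : Rp ρ) (P : PDk κ) (ξ η : H) (N m₁ : ℕ) :
    Dd κ N m₁ 0 (co ρ ξ) ≤ 2 * Dd κ N m₁ 0 (co ρ η) + 2 * ‖ξ - η‖ ^ 2 := by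
  have e := congrArg (Dd κ N m₁ 0) (funext (co_par (ρ := ρ) η (ξ - η)))
  rw [Dd_add (h.bd_co _) (h.bd_co _), Dd_mul, Dd_add (h.bd_co _) (h.bd_co _)] at e
  simp only [add_sub_cancel] at e
  linarith [P.Dd_nonneg (h.pd_co (η - (ξ - η))) N m₁ 0, h.Dd_le P (ξ - η) N m₁]

/-- The spectral mass near the diagonal directions is small. -/
lemma frame (h : Rp ρ) {l : ℝ} (hl : l ≠ 0) (P : PDk (kap l)) {t : H ≃ₗᵢ[ℝ] H}
    (ht : ∀ k q, t ^ k * ρ q = ρ (dg l k q) * t ^ k) {η : H} (h1 : ‖η‖ = 1) (N m₁ : ℕ)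
    (hs : ∑ k ∈ Finset.range (N + 1), ‖(t ^ k) η - η‖ ^ 2 ≤ 1) :
    Dd (kap l) N m₁ 0 (co ρ η) ≤ 4 / (N + 1) := by
  have step : ∀ k ∈ Finset.range (N + 1), Dd (kap l) N m₁ 0 (co ρ η) ≤
      2 * Dd (kap l) N m₁ k (co ρ η) + 2 * ‖(t ^ k) η - η‖ ^ 2 := fun k hk => by
    have hk' : k ≤ N := Nat.lt_succ_iff.1 (Finset.mem_range.1 hk)
    have a := h.Dd_lip P η ((t ^ k).symm η) N m₁
    have e : co ρ ((t ^ k).symm η) = fun q => co ρ η (dg l k q) := by
      funext q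
      have := congrArg (fun g : H ≃ₗᵢ[ℝ] H => g ((t ^ k).symm η)) (ht k q)
      simp only [LinearIsometryEquiv.coe_mul, Function.comp_apply,
        LinearIsometryEquiv.apply_symm_apply] at this
      rw [co, co, ← (t ^ k).inner_map_map, this, LinearIsometryEquiv.apply_symm_apply]
    have e2 : ‖η - (t ^ k).symm η‖ = ‖(t ^ k) η - η‖ := by
      rw [← (t ^ k).norm_map, map_sub, LinearIsometryEquiv.apply_symm_apply]
    rwa [e, Dd_dg hl (h.bd_co η).m hk', e2] at a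
  have b := Finset.sum_le_sum step
  rw [Finset.sum_add_distrib, ← Finset.mul_sum, ← Finset.mul_sum, Finset.sum_const,
    Finset.card_range, nsmul_eq_mul] at b
  have c := (P.sum_Dd (h.pd_co η) (N₀ := N + 1) (N := N) le_rfl m₁).trans (h.Gi_le η _ _ _)
  rw [h1] at c
  push_cast at b
  rw [le_div_iff₀' (by positivity)]
  linarith

end Rp

lemma shift_le {f : T3 → ℝ} (hf : Measurable f) {B : ℝ} (hB : ∀ q, |f q| ≤ B) (p : T3)
    {ε : ℝ} (hε : 0 < ε) : ∀ᶠ n : ℕ in atTop,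
      ∫ q, f (q + p) ∂N3 n n n - ∫ q, f q ∂N3 n n n ≤ ε * (2 * B) := by
  obtain ⟨s₀, hs₀⟩ := N3_shift p hε
  filter_upwards [tendsto_natCast_atTop_atTop.eventually_ge_atTop s₀] with n hn
  have B0 : 0 ≤ B := (abs_nonneg _).trans (hB 0)
  have i1 : Integrable f (N3 n n n) := Bd.int ⟨hf, B, hB⟩ _ _ _
  have i2 : Integrable (fun q => f (q + p)) (N3 n n n) :=
    Bd.int ⟨by fun_prop, B, fun q => hB _⟩ _ _ _
  have nn : ∀ q, 0 ≤ f q + B := fun q => by linarith [(abs_le.1 (hB q)).1]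
  have a := hs₀ n (by simpa using hn) (fun q => ENNReal.ofReal (f q + B)) (by fun_prop)
  have b : ∫⁻ q, ENNReal.ofReal (f q + B) ∂N3 (2 * n) (2 * n) (2 * n) ≤ ENNReal.ofReal (2 * B) := by
    refine (lintegral_mono fun q => ENNReal.ofReal_le_ofReal
      (show f q + B ≤ 2 * B by linarith [(abs_le.1 (hB q)).2])).trans (by simp)
  have c := a.trans (add_le_add_right (mul_le_mul_right b _) _)
  rw [← ofReal_integral_eq_lintegral_ofReal (f := fun q => f (q + p) + B)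
      (i2.add (integrable_const B)) (ae_of_all _ fun q => nn _),
    ← ofReal_integral_eq_lintegral_ofReal (f := fun q => f q + B) (i1.add (integrable_const B))
      (ae_of_all _ fun q => nn _), ← ENNReal.ofReal_mul hε.le,
    ← ENNReal.ofReal_add (integral_nonneg fun q => nn _) (by positivity),
    ENNReal.ofReal_le_ofReal_iff (add_nonneg (integral_nonneg fun q => nn _) (by positivity)),
    integral_add i2 (integrable_const B), integral_add i1 (integrable_const B)] at c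
  linarith

lemma shift {f : T3 → ℝ} (hf : Bd f) (p : T3) :
    Tendsto (fun n : ℕ => ∫ q, f (q + p) ∂N3 n n n - ∫ q, f q ∂N3 n n n) atTop (𝓝 0) := by
  obtain ⟨B, hB⟩ := hf.b
  have B0 : 0 ≤ B := (abs_nonneg _).trans (hB 0)
  have m := hf.m
  have key : ∀ e : ℝ, 0 < e → e / (2 * B + 1) * (2 * B) < e := fun e he => by
    rw [div_mul_eq_mul_div, div_lt_iff₀ (by positivity)]
    nlinarith
  refine tendsto_order.2 ⟨fun a ha => ?_, fun a ha => ?_⟩
  · filter_upwards [shift_le (f := fun q => -f q) (by fun_prop) (B := B)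
      (fun q => by rw [abs_neg]; exact hB q) p (ε := -a / (2 * B + 1))
      (div_pos (by linarith) (by positivity))] with n hn
    simp only [integral_neg] at hn
    linarith [key (-a) (by linarith)]
  · filter_upwards [shift_le m hB p (ε := a / (2 * B + 1)) (by positivity)] with n hn
    exact hn.trans_lt (key a ha)

namespace Rp

/-- The mean ergodic theorem for Gaussian averages. -/
lemma Gi_small [CompleteSpace H] (h : Rp ρ) (h0 : ∀ v, (∀ q, ρ q v = v) → v = 0) {η : H}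
    (h1 : ‖η‖ = 1) {ε : ℝ} (hε : 0 < ε) : ∃ v : ℝ≥0, v ≠ 0 ∧ Gi (co ρ η) v v v ≤ ε := by
  let K : Submodule ℝ H := Submodule.span ℝ (Set.range fun x : T3 × H => ρ x.1 x.2 - x.2)
  have hK : Kᗮ = ⊥ := by
    refine (Submodule.eq_bot_iff _).2 fun v hv => h0 v fun q => ?_
    have a := (Submodule.mem_orthogonal K v).1 hv _ (Submodule.subset_span ⟨(q, v), rfl⟩)
    simp only [inner_sub_left, real_inner_self_eq_norm_sq] at a
    have b := co_eq (ρ := ρ) v q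
    rw [co] at b
    have : ‖ρ q v - v‖ ^ 2 = 0 := by linarith
    exact sub_eq_zero.1 (norm_eq_zero.1 (pow_eq_zero_iff two_ne_zero |>.1 this))
  have hd : η ∈ closure (K : Set H) := by
    have := (Submodule.topologicalClosure_eq_top_iff (K := K)).2 hK
    rw [← Submodule.topologicalClosure_coe, this]
    trivial
  have hT : ∀ w ∈ K, Tendsto (fun n : ℕ => ∫ q, ⟪ρ q w, η⟫_ℝ ∂N3 n n n) atTop (𝓝 0) := by
    intro w hw
    induction hw using Submodule.span_induction with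
    | mem w hw =>
      obtain ⟨⟨p, z⟩, rfl⟩ := hw
      refine (shift (h.bd_in z η) p).congr fun n => ?_
      simp only [map_sub, inner_sub_left, h.add, LinearIsometryEquiv.coe_mul, Function.comp_apply]
      rw [integral_sub ((h.bd_in _ η).int _ _ _) ((h.bd_in _ η).int _ _ _)]
    | zero => simp
    | add a b _ _ ha hb =>
      have := ha.add hb
      rw [add_zero] at this
      refine this.congr fun n => ?_
      simp only [map_add, inner_add_left]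
      rw [integral_add ((h.bd_in _ η).int _ _ _) ((h.bd_in _ η).int _ _ _)]
    | smul c a _ ha =>
      have := ha.const_mul c
      rw [mul_zero] at this
      refine this.congr fun n => ?_
      simp only [map_smul, real_inner_smul_left, integral_const_mul]
  obtain ⟨w, hw, hd⟩ := Metric.mem_closure_iff.1 hd (ε / 2) (half_pos hε)
  obtain ⟨n, hn, hn1⟩ := (((hT w hw).eventually_le_const (half_pos hε)).and
    (eventually_ge_atTop 1)).exists
  refine ⟨n, by exact_mod_cast (by omega : n ≠ 0), ?_⟩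
  have : Gi (co ρ η) n n n ≤ ∫ q, (⟪ρ q w, η⟫_ℝ + ε / 2) ∂N3 n n n := by
    refine integral_mono ((h.bd_co η).int _ _ _) (((h.bd_in w η).int _ _ _).add (integrable_const _))
      fun q => ?_
    have a := (le_abs_self _).trans (abs_in (ρ q) (η - w) η)
    rw [h1, mul_one, map_sub, inner_sub_left, ← dist_eq_norm] at a
    simp only [co]
    linarith
  rw [integral_add ((h.bd_in w η).int _ _ _) (integrable_const _)] at this
  simp only [integral_const, probReal_univ, one_smul] at this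
  linarith

lemma tendsto_Gi (h : Rp ρ) {η : ℕ → H} (h1 : ∀ k, ‖η k‖ = 1)
    (h2 : ∀ q, Tendsto (fun k => ‖ρ q (η k) - η k‖) atTop (𝓝 0)) (a b c : ℝ≥0) :
    Tendsto (fun k => Gi (co ρ (η k)) a b c) atTop (𝓝 1) := by
  have := tendsto_integral_filter_of_dominated_convergence (μ := N3 a b c) (l := atTop)
    (F := fun k => co ρ (η k)) (f := fun _ => (1 : ℝ)) (fun _ => (1 : ℝ))
    (Eventually.of_forall fun i => (h.bd_co _).m.aestronglyMeasurable)
    (Eventually.of_forall fun i => ae_of_all _ fun q => by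
      simpa [h1 i] using abs_co (ρ := ρ) (η i) q)
    (integrable_const _) (ae_of_all _ fun q => by
      simp only [co_eq, h1]
      simpa using (((h2 q).pow 2).div_const 2).const_sub 1)
  simpa [Gi] using this

end Rp

lemma pow_comm {l : ℝ} {t : H ≃ₗᵢ[ℝ] H} (h : ∀ q, t * ρ q = ρ (dg l 1 q) * t) (k : ℕ)
    (q : T3) : t ^ k * ρ q = ρ (dg l k q) * t ^ k := by
  induction k with
  | zero => simp [dg]
  | succ k ih =>
    rw [pow_succ', mul_assoc, ih, ← mul_assoc, h, mul_assoc]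
    congr 2
    simp only [dg, pow_one, Prod.mk.injEq, true_and]
    constructor
    · ring
    · rw [pow_succ', mul_inv, mul_assoc]

theorem core (hp : PDStmt) [CompleteSpace H] (h : Rp ρ) {l : ℝ} {R₂ R₃ : T3 ≃ₗ[ℝ] T3} (hl : 2 ≤ l)
    (hG : Gen R₂ R₃) {t₁ t₂ t₃ : H ≃ₗᵢ[ℝ] H}
    (e₁ : ∀ q, t₁ * ρ q = ρ (dg l 1 q) * t₁)
    (e₂ : ∀ q, t₂ * ρ (R₂ q) = ρ (R₂ (dg l 1 q)) * t₂)
    (e₃ : ∀ q, t₃ * ρ (R₃ q) = ρ (R₃ (dg l 1 q)) * t₃)
    {η : ℕ → H} (h1 : ∀ k, ‖η k‖ = 1)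
    (h2 : ∀ q, Tendsto (fun k => ‖ρ q (η k) - η k‖) atTop (𝓝 0)) (a₁ : AI η t₁) (a₂ : AI η t₂)
    (a₃ : AI η t₃) : ∃ v, v ≠ 0 ∧ ∀ q, ρ q v = v := by
  by_contra hn
  have h0 : ∀ v, (∀ q, ρ q v = v) → v = 0 := fun v hv => by
    by_contra hv0
    exact hn ⟨v, hv0, hv⟩
  have l0 : l ≠ 0 := by linarith
  have κ2 : 2 ≤ kap l := by
    rw [← NNReal.coe_le_coe]
    show (2 : ℝ) ≤ l ^ 2
    nlinarith
  obtain ⟨P1, P2, P3⟩ := hp _ κ2
  have P : PDk (kap l) := ⟨P1, P2⟩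
  obtain ⟨c₁, hc₁, P4⟩ := P3 R₂ R₃ hG
  obtain ⟨N, hN⟩ := exists_nat_gt (24 / c₁)
  obtain ⟨j, ⟨⟨b₁, b₂⟩, b₂'⟩, b₃⟩ := ((((a₁.sum (N + 1)).and (a₂.sum (N + 1))).and
    (a₃.sum (N + 1))).and
    ((h.tendsto_Gi h1 h2 (kap l ^ N) (kap l ^ N) (kap l ^ N)).eventually_const_le
      (show (3 / 4 : ℝ) < 1 by norm_num))).exists
  obtain ⟨v, hv, b₄⟩ := h.Gi_small h0 (h1 j) (ε := 1 / 4 / Real.exp (1 / 2)) (by positivity)
  obtain ⟨m₁, hm⟩ := P4 _ (h.pd_co (η j)) N v hv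
  rw [Finset.sum_add_distrib, Finset.sum_add_distrib] at hm
  have f₁ := h.frame l0 P (pow_comm e₁) (h1 j) N m₁ b₁
  have f₂ := (h.lin R₂).frame l0 P (pow_comm (ρ := fun q => ρ (R₂ q)) e₂) (h1 j) N m₁ b₂
  have f₃ := (h.lin R₃).frame l0 P (pow_comm (ρ := fun q => ρ (R₃ q)) e₃) (h1 j) N m₁ b₂'
  have k1 := hm.trans (add_le_add (add_le_add f₁ f₂) f₃)
  rw [le_div_iff₀' (Real.exp_pos _)] at b₄
  have k2 : c₁ * (1 / 2) ≤ 4 / (N + 1) + 4 / (N + 1) + 4 / (N + 1) :=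
    (mul_le_mul_of_nonneg_left (by linarith) hc₁.le).trans k1
  rw [← add_div, ← add_div, le_div_iff₀ (by positivity)] at k2
  rw [div_lt_iff₀ hc₁] at hN
  nlinarith

lemma inv_comm {x : H ≃ₗᵢ[ℝ] H} {f g : T3 → T3} (h : ∀ q, x * ρ q = ρ (f q) * x)
    (hg : ∀ q, f (g q) = q) (q : T3) : x⁻¹ * ρ q = ρ (g q) * x⁻¹ := by
  have := h (g q)
  rw [hg] at this
  rw [inv_mul_eq_iff_eq_mul, ← mul_assoc, this, mul_inv_cancel_right]

lemma mul_comm' {x y : H ≃ₗᵢ[ℝ] H} {f g : T3 → T3} (hx : ∀ q, x * ρ q = ρ (f q) * x)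
    (hy : ∀ q, y * ρ q = ρ (g q) * y) (q : T3) : x * y * ρ q = ρ (f (g q)) * (x * y) := by
  rw [mul_assoc, hy, ← mul_assoc, hx, mul_assoc]

theorem relT3 (hp : C3.PDStmt) (hf : C3.FrameStmt) : H33.RelT3Stmt := by
  intro H _ _ _ ρ x y η hadd hcont hx hy h1 h2 ax ay
  have h : Rp ρ := ⟨hadd, hcont⟩
  have hx' := inv_comm (g := H33.U3 (-1)) hx fun q => by
    simp only [H33.U3]
    refine Prod.ext ?_ (Prod.ext ?_ rfl) <;> simp only <;> module
  have hy' := inv_comm (g := H33.L3 (-1)) hy fun q => by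
    simp only [H33.L3]
    refine Prod.ext rfl (Prod.ext ?_ ?_) <;> simp only <;> module
  obtain ⟨l, A, R₂, R₃, hl, hG, g₁, g₂, g₃⟩ := hf 1 le_rfl
  obtain ⟨v, hv, hq⟩ := core hp (h.lin A) hl hG (t₁ := x * y) (t₂ := x⁻¹ * y⁻¹) (t₃ := y * x)
    (fun q => by rw [mul_comm' hx hy, g₁]) (fun q => by rw [mul_comm' hx' hy', g₂])
    (fun q => by rw [mul_comm' hy hx, g₃]) h1 (fun q => h2 _) (AI.mul ax ay)
    (AI.mul (AI.inv ax) (AI.inv ay)) (AI.mul ay ax)
  refine ⟨v, hv, fun q => ?_⟩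
  have := hq (A.symm q)
  rwa [A.apply_symm_apply] at this

end Pool.Agent.MP_2b113a_an.H29
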